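import Mathlib
import Pool.Agent.Helper96.PC.LimU

set_option autoImplicit false
open Classical Filter Topology

namespace Pool.Agent.Results.MP_e6ec33_pr.PathCoverDeletions

/-- `L` is a path cover of `H`: the members of `L` are nonempty lists of vertices along which
consecutive vertices are adjacent in `H`, no vertex is repeated (neither inside a list nor in two
lists), and every vertex occurs. -/
def IsPathCover {n : ℕ} (H : SimpleGraph (Fin n)) (L : List (List (Fin n))) : Prop :=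
  (∀ l ∈ L, l ≠ [] ∧ l.IsChain H.Adj) ∧ L.flatten.Nodup ∧ ∀ v, v ∈ L.flatten

/-- The path cover number `μ(H)`: the least number of paths in a path cover of `H`. -/
noncomputable def pathCoverNumber {n : ℕ} (H : SimpleGraph (Fin n)) : ℕ :=
  sInf {m | ∃ L, IsPathCover H L ∧ L.length = m}

/-- The sizes `|F|` of the edge sets `F ⊆ E(G)` with `μ(G - F) = k`. -/
def deletionSizes {n : ℕ} (G : SimpleGraph (Fin n)) (k : ℕ) : Set ℕ :=
  {j | ∃ F : Finset (Sym2 (Fin n)), (F : Set (Sym2 (Fin n))) ⊆ G.edgeSet ∧ F.card = j ∧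
    pathCoverNumber (G.deleteEdges (F : Set (Sym2 (Fin n)))) = k}

/-- `f = f_k(G)`: some set of `f` edges of `G` can be deleted so that the path cover number
becomes `k`, and no smaller set has this property. -/
def IsFk {n : ℕ} (G : SimpleGraph (Fin n)) (k f : ℕ) : Prop := IsLeast (deletionSizes G k) f

/-- The least number of edges of `G` that meet a set of `k - 1` vertices. -/
noncomputable def touchNumber {n : ℕ} (G : SimpleGraph (Fin n)) (k : ℕ) : ℕ :=
  sInf {j | ∃ S : Finset (Fin n), S.card = k - 1 ∧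
    {e : Sym2 (Fin n) | e ∈ G.edgeSet ∧ ∃ v ∈ S, v ∈ e}.ncard = j}

/-- The probability that the binomial random graph `G(n,p)` on the vertex set `Fin n` has the
property `A`: the sum of `p ^ |E(G)| * (1 - p) ^ (n.choose 2 - |E(G)|)` over all graphs `G` on
`Fin n` with the property `A`. -/
noncomputable def gnp (n : ℕ) (p : ℝ) (A : SimpleGraph (Fin n) → Prop) : ℝ :=
  ∑ G : SimpleGraph (Fin n),
    if A G then p ^ G.edgeSet.ncard * (1 - p) ^ (n.choose 2 - G.edgeSet.ncard) else 0

open Pool.Agent.Helper96 Pool.Agent.Helper96.PC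

/-- the edge set of a graph as a finite set -/
noncomputable def eF {n : ℕ} (G : SimpleGraph (Fin n)) : Finset (Sym2 (Fin n)) :=
  Finset.univ.filter (fun e => e ∈ G.edgeSet)

theorem mem_eF' {n : ℕ} {G : SimpleGraph (Fin n)} {e : Sym2 (Fin n)} :
    e ∈ eF G ↔ e ∈ G.edgeSet := by
  unfold eF
  rw [Finset.mem_filter]
  exact ⟨fun h => h.2, fun h => ⟨Finset.mem_univ _, h⟩⟩

theorem mem_eF {n : ℕ} {G : SimpleGraph (Fin n)} {x y : Fin n} :
    s(x, y) ∈ eF G ↔ G.Adj x y := by
  rw [mem_eF', SimpleGraph.mem_edgeSet]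

theorem coe_eF {n : ℕ} (G : SimpleGraph (Fin n)) : (eF G : Set (Sym2 (Fin n))) = G.edgeSet := by
  ext e
  rw [Finset.mem_coe, mem_eF']

theorem ncard_eF {n : ℕ} (G : SimpleGraph (Fin n)) : G.edgeSet.ncard = (eF G).card := by
  rw [← coe_eF, Set.ncard_coe_finset]

theorem card_allp_fin (n : ℕ) : (allp (Fin n)).card = n.choose 2 := by
  have h1 := Sym2.card_subtype_not_diag (α := Fin n)
  rw [Fintype.card_fin] at h1
  rw [← h1, Fintype.card_subtype]
  unfold allp
  congr 1

theorem gnp_eq {n : ℕ} {p : ℝ} {A : SimpleGraph (Fin n) → Prop}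
    {B : Finset (Sym2 (Fin n)) → Prop} (h : ∀ G, A G ↔ B (eF G)) :
    gnp n p A = Pr (allp (Fin n)) p B := by
  unfold gnp Pr Ex
  apply Finset.sum_bij' (fun G _ => eF G)
    (fun E _ => SimpleGraph.fromEdgeSet (E : Set (Sym2 (Fin n))))
  · intro G _
    rw [Finset.mem_powerset]
    intro e he
    induction e using Sym2.ind with
    | _ x y =>
      rw [mem_eF] at he
      exact mem_allp.mpr he.ne
  · intro E _
    exact Finset.mem_univ _
  · intro G _
    rw [coe_eF, SimpleGraph.fromEdgeSet_edgeSet]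
  · intro E hE
    rw [Finset.mem_powerset] at hE
    ext e
    induction e using Sym2.ind with
    | _ x y =>
      rw [mem_eF, SimpleGraph.fromEdgeSet_adj, Finset.mem_coe]
      exact ⟨fun h => h.1, fun h => ⟨h, mem_allp.mp (hE h)⟩⟩
  · intro G _
    rw [ncard_eF, card_allp_fin]
    by_cases hA : A G
    · have hB := (h G).mp hA
      simp only [hA, hB, if_true, mul_one]
    · have hB : ¬ B (eF G) := fun hB => hA ((h G).mpr hB)
      simp only [hA, hB, if_false, mul_zero]

theorem adj_delete {n : ℕ} (G : SimpleGraph (Fin n)) (F : Finset (Sym2 (Fin n))) :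
    (G.deleteEdges (F : Set (Sym2 (Fin n)))).Adj = Adj (eF G \ F) := by
  funext x y
  apply propext
  rw [SimpleGraph.deleteEdges_adj, Finset.mem_coe]
  unfold Adj
  rw [Finset.mem_sdiff, mem_eF]

theorem pathCover_eq {n : ℕ} (G : SimpleGraph (Fin n)) (F : Finset (Sym2 (Fin n))) :
    pathCoverNumber (G.deleteEdges (F : Set (Sym2 (Fin n)))) = muE (eF G \ F) := by
  unfold pathCoverNumber muE
  congr 1
  ext m
  rw [Set.mem_ofPred_eq, Set.mem_ofPred_eq]
  unfold IsPathCover Cov
  rw [adj_delete]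
  constructor
  · rintro ⟨L, ⟨h1, h2, h3⟩, h4⟩
    exact ⟨L, h4, h1, h2, fun v => ⟨fun _ => Finset.mem_univ _, fun _ => h3 v⟩⟩
  · rintro ⟨L, h4, h1, h2, h3⟩
    exact ⟨L, ⟨h1, h2, fun v => (h3 v).mpr (Finset.mem_univ _)⟩, h4⟩

theorem sizes_eq {n : ℕ} (G : SimpleGraph (Fin n)) (k : ℕ) : deletionSizes G k =
    {j | ∃ F, F ⊆ eF G ∧ F.card = j ∧ muE (eF G \ F) = k} := by
  unfold deletionSizes
  ext j
  rw [Set.mem_ofPred_eq, Set.mem_ofPred_eq]
  apply exists_congr
  intro F
  rw [pathCover_eq, ← coe_eF, Finset.coe_subset]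

theorem touch_eq {n : ℕ} (G : SimpleGraph (Fin n)) (k : ℕ) :
    touchNumber G k = mE (eF G) k := by
  unfold touchNumber mE
  congr 1
  ext j
  rw [Set.mem_ofPred_eq, Set.mem_ofPred_eq]
  apply exists_congr
  intro S
  have : {e : Sym2 (Fin n) | e ∈ G.edgeSet ∧ ∃ v ∈ S, v ∈ e}.ncard = (tch (eF G) S).card := by
    rw [← Set.ncard_coe_finset]
    congr 1
    ext e
    induction e using Sym2.ind with
    | _ x y =>
      rw [Set.mem_ofPred_eq, Finset.mem_coe, mem_tch, mem_eF']
      apply and_congr_right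
      intro _
      constructor
      · rintro ⟨v, hv, hve⟩
        rw [Sym2.mem_iff] at hve
        rcases hve with rfl | rfl
        · exact Or.inl hv
        · exact Or.inr hv
      · rintro (h | h)
        · exact ⟨x, h, Sym2.mem_mk_left _ _⟩
        · exact ⟨y, h, Sym2.mem_mk_right _ _⟩
  rw [this]

theorem isFk_of {n : ℕ} {G : SimpleGraph (Fin n)} {k : ℕ}
    (h : 0 < mE (eF G) k ∧ fE (eF G) k = mE (eF G) k) : IsFk G k (touchNumber G k) := by
  unfold IsFk
  rw [sizes_eq, touch_eq]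
  have h1 : sInf {j | ∃ F, F ⊆ eF G ∧ F.card = j ∧ muE (eF G \ F) = k} = mE (eF G) k := h.2
  rw [← h1]
  have hne : {j | ∃ F, F ⊆ eF G ∧ F.card = j ∧ muE (eF G \ F) = k}.Nonempty := by
    by_contra hcon
    rw [Set.not_nonempty_iff_eq_empty] at hcon
    rw [hcon, Nat.sInf_empty] at h1
    omega
  exact ⟨Nat.sInf_mem hne, fun j hj => Nat.sInf_le hj⟩

theorem degree_eq {n : ℕ} (G : SimpleGraph (Fin n)) (v : Fin n) :
    G.degree v = deg (eF G) v := by
  unfold deg nb
  rw [← SimpleGraph.card_neighborFinset_eq_degree]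
  congr 1
  ext w
  rw [SimpleGraph.mem_neighborFinset, Finset.mem_filter, mem_eF]
  exact ⟨fun h => ⟨Finset.mem_univ _, h⟩, fun h => h.2⟩

theorem gnp_mono {n : ℕ} {p : ℝ} (h0 : 0 ≤ p) (h1 : p ≤ 1) {A B : SimpleGraph (Fin n) → Prop}
    (h : ∀ G, A G → B G) : gnp n p A ≤ gnp n p B := by
  unfold gnp
  apply Finset.sum_le_sum
  intro G _
  have h2 : 0 ≤ p ^ G.edgeSet.ncard * (1 - p) ^ (n.choose 2 - G.edgeSet.ncard) :=
    mul_nonneg (pow_nonneg h0 _) (pow_nonneg (by linarith) _)
  by_cases hA : A G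
  · simp only [hA, h G hA, if_true, le_refl]
  · simp only [hA, if_false]
    by_cases hB : B G
    · simp only [hB, if_true, h2]
    · simp only [hB, if_false, le_refl]

theorem gnp_le_one {n : ℕ} {p : ℝ} (h0 : 0 ≤ p) (h1 : p ≤ 1) (A : SimpleGraph (Fin n) → Prop) :
    gnp n p A ≤ 1 := by
  have h2 := gnp_mono h0 h1 (A := A) (B := fun _ => True) (fun _ _ => trivial)
  rw [gnp_eq (B := fun _ => True) (fun _ => Iff.rfl), Pr_true] at h2
  exact h2

/-- Main theorem.  (1) For every fixed `k ≥ 2` and every `p` above the Hamiltonicity threshold,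
with high probability `f_k(G)` is the least number of edges of `G` meeting a set of `k - 1`
vertices.  (2) For every fixed `k ≥ 2` the asked identity `f_k(G) = k (δ(G) - 1)` is false: if
`np` is at least a suitable multiple of `log n`, then `f_k(G) < k (δ(G) - 1)` with high
probability.  (3) The formula in (1) also holds when `k = k(n)` grows with `n`, as long as
`k(n) ^ 6 ≤ c * n * p(n)`. -/
theorem result :
    (∀ k : ℕ, 2 ≤ k → ∀ p : ℕ → ℝ, (∀ n, 0 ≤ p n ∧ p n ≤ 1) →
      Tendsto (fun n : ℕ => (n : ℝ) * p n - Real.log n - Real.log (Real.log n)) atTop atTop →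
      Tendsto (fun n : ℕ => gnp n (p n) (fun G => IsFk G k (touchNumber G k))) atTop (𝓝 1)) ∧
    (∀ k : ℕ, 2 ≤ k → ∃ C : ℝ, ∀ p : ℕ → ℝ, (∀ n, 0 ≤ p n ∧ p n ≤ 1) →
      (∀ᶠ n : ℕ in atTop, C * Real.log n ≤ (n : ℝ) * p n) →
      Tendsto (fun n : ℕ => (n : ℝ) * p n - Real.log n - Real.log (Real.log n)) atTop atTop ∧
      Tendsto (fun n : ℕ => gnp n (p n) (fun G => ∃ f : ℕ, IsFk G k f ∧
        (f : ℤ) < (k : ℤ) * ((G.minDegree : ℤ) - 1))) atTop (𝓝 1)) ∧
    (∃ c : ℝ, 0 < c ∧ ∀ (k : ℕ → ℕ) (p : ℕ → ℝ), (∀ n, 0 ≤ p n ∧ p n ≤ 1) →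
      (∀ᶠ n : ℕ in atTop, 2 ≤ k n ∧ ((k n : ℕ) : ℝ) ^ 6 ≤ c * ((n : ℝ) * p n)) →
      Tendsto (fun n : ℕ => (n : ℝ) * p n - Real.log n - Real.log (Real.log n)) atTop atTop →
      Tendsto (fun n : ℕ => gnp n (p n) (fun G => IsFk G (k n) (touchNumber G (k n))))
        atTop (𝓝 1)) := by
  have part3 : ∃ c : ℝ, 0 < c ∧ ∀ (k : ℕ → ℕ) (p : ℕ → ℝ), (∀ n, 0 ≤ p n ∧ p n ≤ 1) →
      (∀ᶠ n : ℕ in atTop, 2 ≤ k n ∧ ((k n : ℕ) : ℝ) ^ 6 ≤ c * ((n : ℝ) * p n)) →
      Tendsto (fun n : ℕ => (n : ℝ) * p n - Real.log n - Real.log (Real.log n)) atTop atTop →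
      Tendsto (fun n : ℕ => gnp n (p n) (fun G => IsFk G (k n) (touchNumber G (k n))))
        atTop (𝓝 1) := by
    obtain ⟨c, hc, hlim⟩ := lim_unif
    refine ⟨c, hc, ?_⟩
    intro k p hp hk hw
    apply tendsto_of_tendsto_of_tendsto_of_le_of_le (hlim k p hp hk hw) tendsto_const_nhds
    · intro n
      have h1 := gnp_eq (n := n) (p := p n)
        (A := fun G => 0 < mE (eF G) (k n) ∧ fE (eF G) (k n) = mE (eF G) (k n))
        (B := fun E => 0 < mE E (k n) ∧ fE E (k n) = mE E (k n)) (fun _ => Iff.rfl)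
      simp only
      rw [← h1]
      exact gnp_mono (hp n).1 (hp n).2 (fun G hG => isFk_of hG)
    · intro n
      exact gnp_le_one (hp n).1 (hp n).2 _
  have part1 : ∀ k : ℕ, 2 ≤ k → ∀ p : ℕ → ℝ, (∀ n, 0 ≤ p n ∧ p n ≤ 1) →
      Tendsto (fun n : ℕ => (n : ℝ) * p n - Real.log n - Real.log (Real.log n)) atTop atTop →
      Tendsto (fun n : ℕ => gnp n (p n) (fun G => IsFk G k (touchNumber G k))) atTop (𝓝 1) := by
    intro k hk p hp hw
    apply tendsto_of_tendsto_of_tendsto_of_le_of_le (lim_one hk hp hw) tendsto_const_nhds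
    · intro n
      have h1 := gnp_eq (n := n) (p := p n)
        (A := fun G => 0 < mE (eF G) k ∧ fE (eF G) k = mE (eF G) k)
        (B := fun E => 0 < mE E k ∧ fE E k = mE E k) (fun _ => Iff.rfl)
      simp only
      rw [← h1]
      exact gnp_mono (hp n).1 (hp n).2 (fun G hG => isFk_of hG)
    · intro n
      exact gnp_le_one (hp n).1 (hp n).2 _
  refine ⟨part1, ?_, part3⟩
  intro k hk
  obtain ⟨C, hC, hlim⟩ := lim_two hk
  refine ⟨C, ?_⟩
  intro p hp hev
  have hw : Tendsto (fun n : ℕ => (n : ℝ) * p n - Real.log n - Real.log (Real.log n))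
      atTop atTop := by
    apply tendsto_atTop_mono' atTop _ log_cast_tendsto
    filter_upwards [hev, eventually_ge_atTop 3] with n h1 h2
    have hnR : (3:ℝ) ≤ n := by exact_mod_cast h2
    have hl1 : 1 ≤ Real.log n := by
      rw [Real.le_log_iff_exp_le (by linarith)]
      have := Real.exp_one_lt_d9.le
      linarith
    have hll : Real.log (Real.log n) ≤ Real.log n := by
      have := Real.log_le_sub_one_of_pos (show 0 < Real.log n by linarith)
      linarith
    have : 8 * Real.log n ≤ C * Real.log n := mul_le_mul_of_nonneg_right hC (by linarith)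
    linarith
  refine ⟨hw, ?_⟩
  have h1 := part1 k hk p hp hw
  have h2 := hlim p hp hev
  have h3 : Tendsto (fun n : ℕ => gnp n (p n) (fun G => IsFk G k (touchNumber G k)) +
      Pr (allp (Fin n)) (p n) (fun E => ∀ v, (mE E k : ℤ) < k * ((deg E v : ℤ) - 1)) - 1)
      atTop (𝓝 1) := by
    have := (h1.add h2).sub_const 1
    simpa using this
  apply tendsto_of_tendsto_of_tendsto_of_le_of_le' h3 tendsto_const_nhds
  · filter_upwards [eventually_ge_atTop 1] with n hn
    have e1 := gnp_eq (n := n) (p := p n)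
      (A := fun G => ∀ v, (mE (eF G) k : ℤ) < k * ((deg (eF G) v : ℤ) - 1))
      (B := fun E => ∀ v, (mE E k : ℤ) < k * ((deg E v : ℤ) - 1)) (fun _ => Iff.rfl)
    rw [← e1]
    have e2 : gnp n (p n) (fun G => IsFk G k (touchNumber G k)) +
        gnp n (p n) (fun G => ∀ v, (mE (eF G) k : ℤ) < k * ((deg (eF G) v : ℤ) - 1)) - 1
        ≤ gnp n (p n) (fun G => IsFk G k (touchNumber G k) ∧
          ∀ v, (mE (eF G) k : ℤ) < k * ((deg (eF G) v : ℤ) - 1)) := by
      have f1 : gnp n (p n) (fun G => IsFk G k (touchNumber G k)) +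
        gnp n (p n) (fun G => ∀ v, (mE (eF G) k : ℤ) < k * ((deg (eF G) v : ℤ) - 1))
        ≤ gnp n (p n) (fun G => IsFk G k (touchNumber G k) ∧
          ∀ v, (mE (eF G) k : ℤ) < k * ((deg (eF G) v : ℤ) - 1)) +
          gnp n (p n) (fun _ => True) := by
        unfold gnp
        rw [← Finset.sum_add_distrib, ← Finset.sum_add_distrib]
        apply Finset.sum_le_sum
        intro G _
        have h2 : 0 ≤ p n ^ G.edgeSet.ncard * (1 - p n) ^ (n.choose 2 - G.edgeSet.ncard) :=
          mul_nonneg (pow_nonneg (hp n).1 _) (pow_nonneg (by linarith [(hp n).2]) _)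
        by_cases hA : IsFk G k (touchNumber G k)
        · by_cases hB : ∀ v, (mE (eF G) k : ℤ) < k * ((deg (eF G) v : ℤ) - 1)
          · rw [if_pos hA, if_pos hB, if_pos ⟨hA, hB⟩, if_pos trivial]
          · rw [if_pos hA, if_neg hB, if_neg (fun h => hB h.2), if_pos trivial]
            linarith
        · by_cases hB : ∀ v, (mE (eF G) k : ℤ) < k * ((deg (eF G) v : ℤ) - 1)
          · rw [if_neg hA, if_pos hB, if_neg (fun h => hA h.1), if_pos trivial]
          · rw [if_neg hA, if_neg hB, if_neg (fun h => hB h.2), if_pos trivial]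
            linarith
      have f2 := gnp_le_one (hp n).1 (hp n).2 (n := n) (fun _ => True)
      linarith
    refine e2.trans (gnp_mono (hp n).1 (hp n).2 ?_)
    rintro G ⟨g1, g2⟩
    refine ⟨touchNumber G k, g1, ?_⟩
    have : Nonempty (Fin n) := ⟨⟨0, by omega⟩⟩
    obtain ⟨v, hv⟩ := G.exists_minimal_degree_vertex
    rw [hv, degree_eq, touch_eq]
    exact g2 v
  · filter_upwards [] with n
    exact gnp_le_one (hp n).1 (hp n).2 _

end Pool.Agent.Results.MP_e6ec33_pr.PathCoverDeletions
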